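import Mathlib

/-!
Countably many algebraically independent `p`-adic integers, and two elementary facts
about `p`-adic integers.
-/

set_option autoImplicit false

namespace Pool.Agent.Lib.MP_6d0c2f_al

open Cardinal

variable (p : ℕ) [Fact p.Prime]

theorem aleph0_lt_mk_padicInt : ℵ₀ < Cardinal.mk ℤ_[p] := by
  have h1 : Cardinal.mk ℚ_[p] = Cardinal.mk ℤ_[p] := IsFractionRing.cardinalMk ℤ_[p] ℚ_[p]
  have h2 := continuum_le_cardinal_of_nontriviallyNormedField ℚ_[p]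
  rw [← h1]
  exact lt_of_lt_of_le aleph0_lt_continuum h2

theorem exists_algInd : ∃ x : ℕ × Bool → ℤ_[p], AlgebraicIndependent ℤ x := by
  obtain ⟨ι, x, hx⟩ := exists_isTranscendenceBasis' ℤ ℤ_[p]
  have hbig := aleph0_lt_mk_padicInt p
  have hinf : Infinite ι := by
    by_contra hfin
    rw [not_infinite_iff_finite] at hfin
    rcases isEmpty_or_nonempty ι with he | hne
    · have halg : Algebra.IsAlgebraic ℤ ℤ_[p] := hx.isEmpty_iff_isAlgebraic.1 he
      have := Algebra.IsAlgebraic.cardinalMk_le_max ℤ ℤ_[p]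
      rw [Cardinal.mk_int, max_self] at this
      exact absurd hbig (not_lt.2 this)
    · have h := hx.lift_cardinalMk_eq_max_lift
      simp only [lift_id, Cardinal.mk_int] at h
      have h3 : Cardinal.mk ι ≤ ℵ₀ := (Cardinal.lt_aleph0_of_finite ι).le
      rw [h] at hbig
      simp only [lt_sup_iff, lt_self_iff_false, false_or, or_false] at hbig
      exact absurd hbig (not_lt.2 h3)
  obtain ⟨e⟩ : Nonempty (ℕ × Bool ↪ ι) := by
    have e1 : ℕ × Bool ↪ ℕ := ⟨Encodable.encode, Encodable.encode_injective⟩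
    exact ⟨e1.trans (Infinite.natEmbedding ι)⟩
  exact ⟨x ∘ e, hx.1.comp e e.injective⟩

variable {p}

theorem eq_zero_of_forall_pow_dvd (d : ℤ_[p]) (h : ∀ n : ℕ, (p : ℤ_[p]) ^ n ∣ d) : d = 0 := by
  apply PadicInt.ext_of_toZModPow.1
  intro n
  rw [map_zero, ← RingHom.mem_ker, PadicInt.ker_toZModPow, Ideal.mem_span_singleton]
  exact h n

theorem exists_approx (z : ℤ_[p]) (n : ℕ) :
    ∃ (m : ℕ) (z' : ℤ_[p]), z = (m : ℤ_[p]) + (p : ℤ_[p]) ^ n * z' := by
  obtain ⟨e, he⟩ := Ideal.mem_span_singleton.mp (PadicInt.appr_spec n z)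
  exact ⟨z.appr n, e, by rw [← he]; ring⟩

theorem int_of_p_mul (z : ℤ_[p]) (n : ℤ) (h : (p : ℤ_[p]) * z = n) : ∃ m : ℤ, z = m := by
  have h1 : ‖(n : ℤ_[p])‖ < 1 := by
    rw [PadicInt.norm_lt_one_iff_dvd]
    exact ⟨z, h.symm⟩
  obtain ⟨m, hm⟩ := (PadicInt.norm_int_lt_one_iff_dvd n).1 h1
  refine ⟨m, ?_⟩
  have hp : (p : ℤ_[p]) ≠ 0 := by exact_mod_cast (Fact.out : p.Prime).ne_zero
  apply mul_left_cancel₀ hp
  rw [h, hm]
  push_cast
  ring

end Pool.Agent.Lib.MP_6d0c2f_al
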