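import Mathlib
import Pool.Agent.Lib.MP_6d0c2f_al.Indep

/-!
A Corner-type realisation theorem: a countable `p`-pure subring `R` of a `ℤ_[p]`-algebra `T`
that has enough coordinates (integral on `R`) is the endomorphism ring of an additive
subgroup of `T`.
-/

set_option autoImplicit false

namespace Pool.Agent.Lib.MP_6d0c2f_al

/-- The data needed for the realisation theorem. -/
structure Setup (p : ℕ) [Fact p.Prime] (T : Type) [Ring T] [Algebra ℤ_[p] T] (κ : Type) where
  R : Subring T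
  lam : κ → T →ₗ[ℤ_[p]] ℤ_[p]
  sep : ∀ t, (∀ i, lam i t = 0) → t = 0
  int : ∀ i, ∀ r ∈ R, ∃ n : ℤ, lam i r = n
  pure : ∀ t : T, p • t ∈ R → t ∈ R
  a : ℕ → R
  a_surj : Function.Surjective a
  x : ℕ × Bool → ℤ_[p]
  x_ind : AlgebraicIndependent ℤ x

namespace Setup

variable {p : ℕ} [Fact p.Prime] {T : Type} [Ring T] [Algebra ℤ_[p] T] {κ : Type}
  (S : Setup p T κ)

include S in
theorem smul_cancel (z : ℤ_[p]) (hz : z ≠ 0) (t : T) (h : z • t = 0) : t = 0 := by
  apply S.sep
  intro i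
  have := congrArg (S.lam i) h
  rw [map_smul, map_zero, smul_eq_mul] at this
  exact (mul_eq_zero.1 this).resolve_left hz

include S in
theorem pow_nsmul_cancel (k : ℕ) (t : T) (h : p ^ k • t = 0) : t = 0 := by
  apply S.smul_cancel ((p ^ k : ℕ) : ℤ_[p])
  · exact_mod_cast pow_ne_zero k (Fact.out : p.Prime).ne_zero
  · rw [Nat.cast_smul_eq_nsmul]; exact h

theorem pure_pow (k : ℕ) (t : T) (h : p ^ k • t ∈ S.R) : t ∈ S.R := by
  induction k generalizing t with
  | zero => simpa using h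
  | succ k ih =>
    apply S.pure
    apply ih
    rw [← mul_nsmul, ← pow_succ']
    exact h

/-- The generators `z_j + w_j a_j`, at an arbitrary point `y`. -/
noncomputable def E (y : ℕ × Bool → ℤ_[p]) (j : ℕ) : T :=
  y (j, false) • (1 : T) + y (j, true) • (S.a j : T)

/-- Left `R`-linear combinations of the generators. -/
noncomputable def V (y : ℕ × Bool → ℤ_[p]) : (ℕ →₀ S.R) →ₗ[S.R] T :=
  Finsupp.linearCombination S.R (S.E y)

theorem V_single (y : ℕ × Bool → ℤ_[p]) (j : ℕ) (s : S.R) :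
    S.V y (Finsupp.single j s) =
      y (j, false) • (s : T) + y (j, true) • ((s * S.a j : S.R) : T) := by
  rw [V, Finsupp.linearCombination_single, E]
  change (s : T) * _ = _
  rw [mul_add, mul_smul_comm, mul_smul_comm, mul_one]
  rfl

theorem V_add (y y' : ℕ × Bool → ℤ_[p]) (r : ℕ →₀ S.R) :
    S.V (y + y') r = S.V y r + S.V y' r := by
  induction r using Finsupp.induction_linear with
  | zero => simp
  | add f g hf hg => rw [map_add, map_add, map_add, hf, hg]; abel
  | single j s => simp only [V_single, Pi.add_apply, add_smul]; abel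

theorem V_neg (y : ℕ × Bool → ℤ_[p]) (r : ℕ →₀ S.R) :
    S.V (-y) r = - S.V y r := by
  induction r using Finsupp.induction_linear with
  | zero => simp
  | add f g hf hg => rw [map_add, map_add, hf, hg]; abel
  | single j s => simp only [V_single, Pi.neg_apply, neg_smul]; abel

theorem V_zero (r : ℕ →₀ S.R) : S.V 0 r = 0 := by
  induction r using Finsupp.induction_linear with
  | zero => simp
  | add f g hf hg => rw [map_add, hf, hg]; abel
  | single j s => simp only [V_single, Pi.zero_apply, zero_smul]; abel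

theorem V_e0 (i : ℕ) (r : ℕ →₀ S.R) :
    S.V (Pi.single (i, false) 1) r = (r i : T) := by
  induction r using Finsupp.induction_linear with
  | zero => simp
  | add f g hf hg => rw [map_add, hf, hg]; simp
  | single j s =>
    rw [V_single]
    by_cases h : j = i
    · subst h; simp
    · simp [h]

theorem V_e1 (i : ℕ) (r : ℕ →₀ S.R) :
    S.V (Pi.single (i, true) 1) r = (r i : T) * S.a i := by
  induction r using Finsupp.induction_linear with
  | zero => simp
  | add f g hf hg => rw [map_add, hf, hg]; simp [add_mul]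
  | single j s =>
    rw [V_single]
    by_cases h : j = i
    · subst h; simp
    · simp [h]

/-- A function of the point `y` all of whose coordinates are integer polynomials in `y`. -/
def IsPoly (F : (ℕ × Bool → ℤ_[p]) → T) : Prop :=
  ∀ i, ∃ q : MvPolynomial (ℕ × Bool) ℤ, ∀ y, S.lam i (F y) = MvPolynomial.aeval y q

theorem IsPoly.const (r : S.R) : S.IsPoly (fun _ => (r : T)) := by
  intro i
  obtain ⟨n, hn⟩ := S.int i r r.2
  exact ⟨MvPolynomial.C n, fun y => by simp [hn]⟩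

variable {S} in
theorem IsPoly.add {F G : (ℕ × Bool → ℤ_[p]) → T} (hF : S.IsPoly F) (hG : S.IsPoly G) :
    S.IsPoly (fun y => F y + G y) := by
  intro i
  obtain ⟨q, hq⟩ := hF i
  obtain ⟨q', hq'⟩ := hG i
  exact ⟨q + q', fun y => by simp [hq, hq']⟩

variable {S} in
theorem IsPoly.sub {F G : (ℕ × Bool → ℤ_[p]) → T} (hF : S.IsPoly F) (hG : S.IsPoly G) :
    S.IsPoly (fun y => F y - G y) := by
  intro i
  obtain ⟨q, hq⟩ := hF i
  obtain ⟨q', hq'⟩ := hG i
  exact ⟨q - q', fun y => by simp [hq, hq']⟩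

variable {S} in
theorem IsPoly.smul {F : (ℕ × Bool → ℤ_[p]) → T} (hF : S.IsPoly F) (j : ℕ × Bool) :
    S.IsPoly (fun y => y j • F y) := by
  intro i
  obtain ⟨q, hq⟩ := hF i
  exact ⟨MvPolynomial.X j * q, fun y => by simp [hq]⟩

theorem isPoly_V (r : ℕ →₀ S.R) : S.IsPoly (fun y => S.V y r) := by
  induction r using Finsupp.induction_linear with
  | zero => simpa using IsPoly.const S 0
  | add f g hf hg => simpa using hf.add hg
  | single j s =>
    simp only [V_single]
    exact ((IsPoly.const S s).smul _).add ((IsPoly.const S _).smul _)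

variable {S} in
theorem IsPoly.eq_zero {F : (ℕ × Bool → ℤ_[p]) → T} (hF : S.IsPoly F) (h : F S.x = 0)
    (y : ℕ × Bool → ℤ_[p]) : F y = 0 := by
  apply S.sep
  intro i
  obtain ⟨q, hq⟩ := hF i
  have h0 : q = 0 := by
    apply S.x_ind
    rw [← hq, h, map_zero, map_zero]
  rw [hq, h0, map_zero]

/-- Comparison of coefficients. -/
theorem key (i : ℕ) (t0 r0 s0 : S.R) (t r s : ℕ →₀ S.R)
    (h : (t0 : T) + S.V S.x t =
      S.x (i, false) • ((r0 : T) + S.V S.x r) + S.x (i, true) • ((s0 : T) + S.V S.x s)) :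
    S.V S.x r = 0 ∧ S.V S.x s = 0 ∧ (s0 : T) = r0 * S.a i := by
  have hP : S.IsPoly (fun y => ((t0 : T) + S.V y t) -
      (y (i, false) • ((r0 : T) + S.V y r) + y (i, true) • ((s0 : T) + S.V y s))) :=
    ((IsPoly.const S t0).add (S.isPoly_V t)).sub
      ((((IsPoly.const S r0).add (S.isPoly_V r)).smul _).add
        (((IsPoly.const S s0).add (S.isPoly_V s)).smul _))
  have hall : ∀ y : ℕ × Bool → ℤ_[p], (t0 : T) + S.V y t =
      y (i, false) • ((r0 : T) + S.V y r) + y (i, true) • ((s0 : T) + S.V y s) := by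
    intro y
    exact sub_eq_zero.1 (hP.eq_zero (sub_eq_zero.2 h) y)
  have ht0 : (t0 : T) = 0 := by
    have := hall 0
    simpa [V_zero] using this
  have h2 : (2 : ℤ_[p]) ≠ 0 := two_ne_zero
  have hQ : ∀ y : ℕ × Bool → ℤ_[p], y (i, false) • S.V y r + y (i, true) • S.V y s = 0 := by
    intro y
    apply S.smul_cancel 2 h2
    have h1 := hall y
    have h3 := hall (-y)
    simp only [V_neg, Pi.neg_apply, ht0, zero_add] at h1 h3
    linear_combination (norm := module) - h1 - h3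
  have hL : ∀ y : ℕ × Bool → ℤ_[p],
      S.V y t = y (i, false) • (r0 : T) + y (i, true) • (s0 : T) := by
    intro y
    have h1 := hall y
    have h3 := hQ y
    rw [ht0, zero_add] at h1
    linear_combination (norm := module) h1 + h3
  have hti : (t i : T) = r0 := by
    have := hL (Pi.single (i, false) 1)
    simpa [V_e0] using this
  have hs0 : (s0 : T) = r0 * S.a i := by
    have := hL (Pi.single (i, true) 1)
    rw [V_e1, hti] at this
    simpa using this.symm
  have hri : (r i : T) = 0 := by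
    have := hQ (Pi.single (i, false) 1)
    simpa [V_e0] using this
  have hV : ∀ y : ℕ × Bool → ℤ_[p], S.V y r = - (y (i, true) • (s i : T)) := by
    intro y
    have h1 := hQ (y + Pi.single (i, false) 1)
    have h3 := hQ y
    simp only [V_add, V_e0, hri, Pi.add_apply, Pi.single_eq_same, add_zero] at h1
    have h4 : (Pi.single (i, false) 1 : ℕ × Bool → ℤ_[p]) (i, true) = 0 := by simp
    rw [h4, add_zero] at h1
    linear_combination (norm := module) h1 - h3
  have hsi : (s i : T) = 0 := by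
    have := hV (Pi.single (i, true) 1)
    rw [V_e1, hri] at this
    simpa using this
  have hVr : S.V S.x r = 0 := by rw [hV, hsi]; simp
  refine ⟨hVr, ?_, hs0⟩
  have h5 := hQ S.x
  rw [hVr, smul_zero, zero_add] at h5
  exact S.smul_cancel _ (S.x_ind.ne_zero _) _ h5

/-- The subgroup `R + ∑ R e_j`. -/
def A0 : Submodule S.R T where
  carrier := {t | ∃ (r0 : S.R) (r : ℕ →₀ S.R), t = r0 + S.V S.x r}
  add_mem' := by
    rintro _ _ ⟨r0, r, rfl⟩ ⟨s0, s, rfl⟩
    exact ⟨r0 + s0, r + s, by rw [map_add]; push_cast; abel⟩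
  zero_mem' := ⟨0, 0, by simp⟩
  smul_mem' := by
    rintro c _ ⟨r0, r, rfl⟩
    exact ⟨c * r0, c • r, by rw [map_smul, smul_add]; rfl⟩

/-- Its `p`-purification in `T`. -/
def A : Submodule S.R T where
  carrier := {t | ∃ k : ℕ, p ^ k • t ∈ S.A0}
  add_mem' := by
    rintro u v ⟨k, hk⟩ ⟨l, hl⟩
    refine ⟨k + l, ?_⟩
    rw [smul_add]
    apply add_mem
    · rw [pow_add, mul_nsmul]; exact nsmul_mem hk _
    · rw [pow_add, mul_comm, mul_nsmul]; exact nsmul_mem hl _
  zero_mem' := ⟨0, by simp⟩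
  smul_mem' := by
    rintro c t ⟨k, hk⟩
    refine ⟨k, ?_⟩
    rw [smul_comm]
    exact S.A0.smul_mem c hk

theorem A_pure (k : ℕ) (t : T) (h : p ^ k • t ∈ S.A) : t ∈ S.A := by
  obtain ⟨l, hl⟩ := h
  exact ⟨k + l, by rw [pow_add, mul_nsmul]; exact hl⟩

theorem coe_mem_A (r : S.R) : (r : T) ∈ S.A := ⟨0, r, 0, by simp⟩

theorem V_mem_A (r : ℕ →₀ S.R) : S.V S.x r ∈ S.A := ⟨0, 0, r, by simp⟩

/-- Endomorphisms of `A` are `p`-adically continuous. -/
theorem cont (φ : S.A →+ S.A) (u v : S.A) (z w : ℤ_[p]) (h : z • (u : T) + w • (v : T) ∈ S.A) :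
    (φ ⟨_, h⟩ : T) = z • (φ u : T) + w • (φ v : T) := by
  rw [← sub_eq_zero]
  apply S.sep
  intro i
  apply eq_zero_of_forall_pow_dvd
  intro n
  obtain ⟨m, z', hz⟩ := exists_approx z n
  obtain ⟨m', w', hw⟩ := exists_approx w n
  have e1 : z • (u : T) + w • (v : T) =
      m • (u : T) + m' • (v : T) + p ^ n • (z' • (u : T) + w' • (v : T)) := by
    rw [hz, hw, ← Nat.cast_smul_eq_nsmul ℤ_[p] m, ← Nat.cast_smul_eq_nsmul ℤ_[p] m',
      ← Nat.cast_smul_eq_nsmul ℤ_[p] (p ^ n)]
    push_cast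
    module
  have hy : z' • (u : T) + w' • (v : T) ∈ S.A := by
    apply S.A_pure n
    have : p ^ n • (z' • (u : T) + w' • (v : T)) =
        (z • (u : T) + w • (v : T)) - (m • (u : T) + m' • (v : T)) := by rw [e1]; abel
    rw [this]
    exact sub_mem h (add_mem (nsmul_mem u.2 _) (nsmul_mem v.2 _))
  have e2 : (⟨_, h⟩ : S.A) = m • u + m' • v + p ^ n • (⟨_, hy⟩ : S.A) := by
    apply Subtype.ext
    simpa using e1
  refine ⟨S.lam i ((φ ⟨_, hy⟩ : T) - z' • (φ u : T) - w' • (φ v : T)), ?_⟩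
  rw [← smul_eq_mul, ← map_smul]
  congr 1
  rw [e2, map_add, map_add, map_nsmul, map_nsmul, map_nsmul]
  simp only [Submodule.coe_add, Submodule.coe_smul_of_tower]
  rw [← Nat.cast_smul_eq_nsmul ℤ_[p] m, ← Nat.cast_smul_eq_nsmul ℤ_[p] m',
      ← Nat.cast_smul_eq_nsmul ℤ_[p] (p ^ n)]
  conv_lhs => rw [hz, hw]
  push_cast
  module

theorem exists_common (u v w : S.A) : ∃ k : ℕ,
    p ^ k • (u : T) ∈ S.A0 ∧ p ^ k • (v : T) ∈ S.A0 ∧ p ^ k • (w : T) ∈ S.A0 := by
  obtain ⟨k, hk⟩ := u.2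
  obtain ⟨l, hl⟩ := v.2
  obtain ⟨m, hm⟩ := w.2
  refine ⟨k + l + m, ?_, ?_, ?_⟩
  · rw [add_assoc, pow_add, mul_nsmul]; exact nsmul_mem hk _
  · rw [add_comm k l, add_assoc, pow_add, mul_nsmul]; exact nsmul_mem hl _
  · rw [add_comm, pow_add, mul_nsmul]; exact nsmul_mem hm _

theorem on_R (φ : S.A →+ S.A) (r : S.R) :
    (φ ⟨(1 : S.R), S.coe_mem_A 1⟩ : T) ∈ S.R ∧
      (φ ⟨r, S.coe_mem_A r⟩ : T) = (φ ⟨(1 : S.R), S.coe_mem_A 1⟩ : T) * r := by
  obtain ⟨i, rfl⟩ := S.a_surj r
  set u : S.A := ⟨(1 : S.R), S.coe_mem_A 1⟩ with hu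
  set v : S.A := ⟨S.a i, S.coe_mem_A _⟩ with hv
  have he : S.x (i, false) • (u : T) + S.x (i, true) • (v : T) ∈ S.A := by
    have := S.V_mem_A (Finsupp.single i 1)
    rw [V_single, one_mul] at this
    exact this
  have hc := S.cont φ u v _ _ he
  obtain ⟨k, ⟨t0, t, ht⟩, ⟨r0, r, hr⟩, ⟨s0, s, hs⟩⟩ := S.exists_common (φ ⟨_, he⟩) (φ u) (φ v)
  have hk := S.key i t0 r0 s0 t r s (by
    rw [← ht, ← hr, ← hs, hc, smul_add, smul_comm (p ^ k), smul_comm (p ^ k)])
  obtain ⟨h1, h2, h3⟩ := hk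
  rw [h1, add_zero] at hr
  rw [h2, add_zero] at hs
  refine ⟨S.pure_pow k _ (hr ▸ r0.2), ?_⟩
  rw [← sub_eq_zero]
  apply S.pow_nsmul_cancel k
  rw [smul_sub, hs, h3, ← hr, smul_mul_assoc, sub_self]

theorem eq_zero_of_on_R (φ : S.A →+ S.A) (h : ∀ r : S.R, φ ⟨r, S.coe_mem_A r⟩ = 0) :
    φ = 0 := by
  have hV : ∀ r : ℕ →₀ S.R, φ ⟨S.V S.x r, S.V_mem_A r⟩ = 0 := by
    intro r
    induction r using Finsupp.induction_linear with
    | zero =>
      have : (⟨S.V S.x 0, S.V_mem_A 0⟩ : S.A) = 0 := Subtype.ext (by simp)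
      rw [this, map_zero]
    | add f g hf hg =>
      have : (⟨S.V S.x (f + g), S.V_mem_A _⟩ : S.A) =
          ⟨S.V S.x f, S.V_mem_A _⟩ + ⟨S.V S.x g, S.V_mem_A _⟩ := Subtype.ext (by simp)
      rw [this, map_add, hf, hg, add_zero]
    | single j s =>
      have he : S.x (j, false) • ((⟨s, S.coe_mem_A s⟩ : S.A) : T) +
          S.x (j, true) • ((⟨(s * S.a j : S.R), S.coe_mem_A _⟩ : S.A) : T) ∈ S.A := by
        have := S.V_mem_A (Finsupp.single j s)
        rw [V_single] at this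
        exact this
      have hc := S.cont φ _ _ _ _ he
      rw [h, h] at hc
      have : (⟨S.V S.x (Finsupp.single j s), S.V_mem_A _⟩ : S.A) = ⟨_, he⟩ :=
        Subtype.ext (S.V_single _ _ _)
      rw [this]
      apply Subtype.ext
      rw [hc]
      simp
  ext t
  obtain ⟨k, r0, r, hk⟩ := t.2
  have h1 : p ^ k • t = ⟨r0, S.coe_mem_A r0⟩ + ⟨S.V S.x r, S.V_mem_A r⟩ :=
    Subtype.ext (by simpa using hk)
  have h2 : p ^ k • φ t = 0 := by rw [← map_nsmul, h1, map_add, h, hV, add_zero]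
  have h3 : p ^ k • (φ t : T) = 0 := by
    have := congrArg Subtype.val h2
    simpa using this
  simpa using S.pow_nsmul_cancel k _ h3

theorem bijective : Function.Bijective (Module.toAddMonoidEnd S.R S.A) := by
  constructor
  · intro c d hcd
    have := congrArg (fun f : AddMonoid.End S.A => (f ⟨(1 : S.R), S.coe_mem_A 1⟩ : T)) hcd
    apply Subtype.ext
    change (c : T) * ((1 : S.R) : T) = (d : T) * ((1 : S.R) : T) at this
    simpa using this
  · intro φ
    let c : S.R := ⟨_, (S.on_R φ 1).1⟩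
    refine ⟨c, ?_⟩
    symm
    rw [← sub_eq_zero]
    apply S.eq_zero_of_on_R
    intro r
    apply Subtype.ext
    change (φ ⟨r, S.coe_mem_A r⟩ : T) - (c : T) * r = 0
    rw [sub_eq_zero]
    exact (S.on_R φ r).2

/-- The realisation `R ≃ End A`. -/
noncomputable def equiv : S.R ≃+* AddMonoid.End S.A :=
  RingEquiv.ofBijective _ S.bijective

end Setup

end Pool.Agent.Lib.MP_6d0c2f_al
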