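import Mathlib
import Pool.Agent.Lib.MP_6d0c2f_al.Corner

/-!
A non-commutative centrally essential ring of rank six over a commutative ring `B`, with basis
`1, x, y, u, v, t`, where `xy = xu = ux = yv = vy = t` and all other products of
`x, y, u, v, t` vanish; and its version over the locally constant integer functions on the
Cantor set.
-/

set_option autoImplicit false

namespace Pool.Agent.Lib.MP_6d0c2f_al

/-- The rank six algebra. -/
@[ext]
structure Six (B : Type) where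
  a : B
  x : B
  y : B
  u : B
  v : B
  t : B

namespace Six

variable {B : Type} [CommRing B]

instance : Zero (Six B) := ⟨⟨0, 0, 0, 0, 0, 0⟩⟩
instance : One (Six B) := ⟨⟨1, 0, 0, 0, 0, 0⟩⟩
instance : Add (Six B) :=
  ⟨fun r s => ⟨r.a + s.a, r.x + s.x, r.y + s.y, r.u + s.u, r.v + s.v, r.t + s.t⟩⟩
instance : Neg (Six B) := ⟨fun r => ⟨-r.a, -r.x, -r.y, -r.u, -r.v, -r.t⟩⟩
instance : Mul (Six B) :=
  ⟨fun r s => ⟨r.a * s.a, r.a * s.x + r.x * s.a, r.a * s.y + r.y * s.a, r.a * s.u + r.u * s.a,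
    r.a * s.v + r.v * s.a,
    r.a * s.t + r.t * s.a + r.x * s.y + r.x * s.u + r.u * s.x + r.y * s.v + r.v * s.y⟩⟩

@[simp] theorem zero_a : (0 : Six B).a = 0 := rfl
@[simp] theorem zero_x : (0 : Six B).x = 0 := rfl
@[simp] theorem zero_y : (0 : Six B).y = 0 := rfl
@[simp] theorem zero_u : (0 : Six B).u = 0 := rfl
@[simp] theorem zero_v : (0 : Six B).v = 0 := rfl
@[simp] theorem zero_t : (0 : Six B).t = 0 := rfl
@[simp] theorem one_a : (1 : Six B).a = 1 := rfl
@[simp] theorem one_x : (1 : Six B).x = 0 := rfl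
@[simp] theorem one_y : (1 : Six B).y = 0 := rfl
@[simp] theorem one_u : (1 : Six B).u = 0 := rfl
@[simp] theorem one_v : (1 : Six B).v = 0 := rfl
@[simp] theorem one_t : (1 : Six B).t = 0 := rfl
@[simp] theorem add_a (r s : Six B) : (r + s).a = r.a + s.a := rfl
@[simp] theorem add_x (r s : Six B) : (r + s).x = r.x + s.x := rfl
@[simp] theorem add_y (r s : Six B) : (r + s).y = r.y + s.y := rfl
@[simp] theorem add_u (r s : Six B) : (r + s).u = r.u + s.u := rfl
@[simp] theorem add_v (r s : Six B) : (r + s).v = r.v + s.v := rfl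
@[simp] theorem add_t (r s : Six B) : (r + s).t = r.t + s.t := rfl
@[simp] theorem neg_a (r : Six B) : (-r).a = -r.a := rfl
@[simp] theorem neg_x (r : Six B) : (-r).x = -r.x := rfl
@[simp] theorem neg_y (r : Six B) : (-r).y = -r.y := rfl
@[simp] theorem neg_u (r : Six B) : (-r).u = -r.u := rfl
@[simp] theorem neg_v (r : Six B) : (-r).v = -r.v := rfl
@[simp] theorem neg_t (r : Six B) : (-r).t = -r.t := rfl
@[simp] theorem mul_a (r s : Six B) : (r * s).a = r.a * s.a := rfl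
@[simp] theorem mul_x (r s : Six B) : (r * s).x = r.a * s.x + r.x * s.a := rfl
@[simp] theorem mul_y (r s : Six B) : (r * s).y = r.a * s.y + r.y * s.a := rfl
@[simp] theorem mul_u (r s : Six B) : (r * s).u = r.a * s.u + r.u * s.a := rfl
@[simp] theorem mul_v (r s : Six B) : (r * s).v = r.a * s.v + r.v * s.a := rfl
@[simp] theorem mul_t (r s : Six B) : (r * s).t =
    r.a * s.t + r.t * s.a + r.x * s.y + r.x * s.u + r.u * s.x + r.y * s.v + r.v * s.y := rfl

instance : Ring (Six B) :=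
  Ring.ofMinimalAxioms
    (fun r s w => by ext <;> simp [add_assoc])
    (fun r => by ext <;> simp)
    (fun r => by ext <;> simp)
    (fun r s w => by ext <;> simp <;> ring)
    (fun r => by ext <;> simp)
    (fun r => by ext <;> simp)
    (fun r s w => by ext <;> simp <;> ring)
    (fun r s w => by ext <;> simp <;> ring)

variable {k : Type} [CommRing k] [Algebra k B]

instance : SMul k (Six B) :=
  ⟨fun c r => ⟨c • r.a, c • r.x, c • r.y, c • r.u, c • r.v, c • r.t⟩⟩

@[simp] theorem smul_a (c : k) (r : Six B) : (c • r).a = c • r.a := rfl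
@[simp] theorem smul_x (c : k) (r : Six B) : (c • r).x = c • r.x := rfl
@[simp] theorem smul_y (c : k) (r : Six B) : (c • r).y = c • r.y := rfl
@[simp] theorem smul_u (c : k) (r : Six B) : (c • r).u = c • r.u := rfl
@[simp] theorem smul_v (c : k) (r : Six B) : (c • r).v = c • r.v := rfl
@[simp] theorem smul_t (c : k) (r : Six B) : (c • r).t = c • r.t := rfl

/-- The module structure over a base ring. -/
@[reducible] def module (k : Type) [CommRing k] [Algebra k B] : Module k (Six B) :=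
  Module.ofMinimalAxioms
    (fun c r s => by ext <;> simp)
    (fun c d r => by ext <;> simp [add_smul])
    (fun c d r => by ext <;> simp [mul_smul])
    (fun r => by ext <;> simp)

/-- The algebra structure over a base ring. -/
@[reducible] def algebra (k : Type) [CommRing k] [Algebra k B] : Algebra k (Six B) :=
  letI := module (B := B) k
  Algebra.ofModule
    (fun c r s => by ext <;> simp [smul_add])
    (fun c r s => by ext <;> simp [smul_add])

/-- The elements all of whose coordinates lie in a subring. -/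
def sub (B0 : Subring B) : Subring (Six B) where
  carrier := {r | r.a ∈ B0 ∧ r.x ∈ B0 ∧ r.y ∈ B0 ∧ r.u ∈ B0 ∧ r.v ∈ B0 ∧ r.t ∈ B0}
  mul_mem' := by
    rintro r s ⟨h1, h2, h3, h4, h5, h6⟩ ⟨g1, g2, g3, g4, g5, g6⟩
    refine ⟨?_, ?_, ?_, ?_, ?_, ?_⟩ <;>
      simp only [mul_a, mul_x, mul_y, mul_u, mul_v, mul_t] <;>
      (repeat' first | apply add_mem | apply mul_mem) <;> assumption
  one_mem' := ⟨B0.one_mem, B0.zero_mem, B0.zero_mem, B0.zero_mem, B0.zero_mem, B0.zero_mem⟩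
  add_mem' := by
    rintro r s ⟨h1, h2, h3, h4, h5, h6⟩ ⟨g1, g2, g3, g4, g5, g6⟩
    exact ⟨add_mem h1 g1, add_mem h2 g2, add_mem h3 g3, add_mem h4 g4, add_mem h5 g5,
      add_mem h6 g6⟩
  zero_mem' := ⟨B0.zero_mem, B0.zero_mem, B0.zero_mem, B0.zero_mem, B0.zero_mem, B0.zero_mem⟩
  neg_mem' := by
    rintro r ⟨h1, h2, h3, h4, h5, h6⟩
    exact ⟨neg_mem h1, neg_mem h2, neg_mem h3, neg_mem h4, neg_mem h5, neg_mem h6⟩

theorem mem_center (B0 : Subring B) (r : sub B0) (hx : (r : Six B).x = 0)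
    (hy : (r : Six B).y = 0) : r ∈ Subring.center (sub B0) := by
  rw [Subring.mem_center_iff]
  intro s
  apply Subtype.ext
  ext <;> simp [hx, hy] <;> ring

theorem noncomm [Nontrivial B] (B0 : Subring B) : ∃ r s : sub B0, r * s ≠ s * r := by
  refine ⟨⟨⟨0, 1, 0, 0, 0, 0⟩, ?_⟩, ⟨⟨0, 0, 1, 0, 0, 0⟩, ?_⟩, ?_⟩
  · exact ⟨B0.zero_mem, B0.one_mem, B0.zero_mem, B0.zero_mem, B0.zero_mem, B0.zero_mem⟩
  · exact ⟨B0.zero_mem, B0.zero_mem, B0.one_mem, B0.zero_mem, B0.zero_mem, B0.zero_mem⟩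
  · intro h
    have := congrArg (fun r : sub B0 => (r : Six B).t) h
    simp at this

theorem centrallyEssential [Nontrivial B] (B0 : Subring B) (r : sub B0) (hr : r ≠ 0) :
    ∃ c d : sub B0, c ∈ Subring.center (sub B0) ∧ d ∈ Subring.center (sub B0) ∧
      c ≠ 0 ∧ d ≠ 0 ∧ r * c = d := by
  have z := B0.zero_mem
  have o := B0.one_mem
  by_cases ha : (r : Six B).a = 0
  · by_cases hx : (r : Six B).x = 0
    · by_cases hy : (r : Six B).y = 0
      · exact ⟨1, r, one_mem _, mem_center B0 r hx hy, fun h => hr (by rw [← mul_one r, h, mul_zero]),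
          hr, mul_one r⟩
      · refine ⟨⟨⟨0, 0, 0, 0, 1, 0⟩, ⟨z, z, z, z, o, z⟩⟩, _, mem_center B0 _ rfl rfl,
          mem_center B0 _ ?_ ?_, ?_, ?_, rfl⟩
        · simp
        · simp
        · intro h
          have := congrArg (fun r : sub B0 => (r : Six B).v) h
          simp at this
        · intro h
          have := congrArg (fun r : sub B0 => (r : Six B).t) h
          simp [hy] at this
    · refine ⟨⟨⟨0, 0, 0, 1, 0, 0⟩, ⟨z, z, z, o, z, z⟩⟩, _, mem_center B0 _ rfl rfl,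
        mem_center B0 _ ?_ ?_, ?_, ?_, rfl⟩
      · simp
      · simp
      · intro h
        have := congrArg (fun r : sub B0 => (r : Six B).u) h
        simp at this
      · intro h
        have := congrArg (fun r : sub B0 => (r : Six B).t) h
        simp [hx] at this
  · refine ⟨⟨⟨0, 0, 0, 0, 0, 1⟩, ⟨z, z, z, z, z, o⟩⟩, _, mem_center B0 _ rfl rfl,
      mem_center B0 _ ?_ ?_, ?_, ?_, rfl⟩
    · simp
    · simp
    · intro h
      have := congrArg (fun r : sub B0 => (r : Six B).t) h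
      simp at this
    · intro h
      have := congrArg (fun r : sub B0 => (r : Six B).t) h
      simp [ha] at this

theorem countable_sub (B0 : Subring B) [Countable B0] : Countable (sub B0) := by
  let f : sub B0 → B0 × B0 × B0 × B0 × B0 × B0 := fun r =>
    (⟨_, r.2.1⟩, ⟨_, r.2.2.1⟩, ⟨_, r.2.2.2.1⟩, ⟨_, r.2.2.2.2.1⟩, ⟨_, r.2.2.2.2.2.1⟩,
      ⟨_, r.2.2.2.2.2.2⟩)
  have hf : Function.Injective f := by
    intro r s h
    simp only [f, Prod.mk.injEq, Subtype.mk.injEq] at h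
    obtain ⟨h1, h2, h3, h4, h5, h6⟩ := h
    exact Subtype.ext (Six.ext h1 h2 h3 h4 h5 h6)
  exact hf.countable

end Six

section Cantor

variable (p : ℕ) [Fact p.Prime]

/-- `f` depends only on the first `N` coordinates. -/
def DepOn {γ : Type} (N : ℕ) (f : (ℕ → Bool) → γ) : Prop :=
  ∀ ξ η : ℕ → Bool, (∀ i < N, ξ i = η i) → f ξ = f η

theorem DepOn.mono {γ : Type} {N M : ℕ} {f : (ℕ → Bool) → γ} (h : DepOn N f) (hNM : N ≤ M) :
    DepOn M f := fun ξ η e => h ξ η (fun i hi => e i (lt_of_lt_of_le hi hNM))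

/-- Integer valued functions on the Cantor set that depend on finitely many coordinates. -/
def B0 : Subring ((ℕ → Bool) → ℤ_[p]) where
  carrier := {f | (∀ ξ, ∃ n : ℤ, f ξ = n) ∧ ∃ N, DepOn N f}
  mul_mem' := by
    rintro f g ⟨hf, N, hN⟩ ⟨hg, M, hM⟩
    refine ⟨fun ξ => ?_, max N M, fun ξ η e => ?_⟩
    · obtain ⟨n, hn⟩ := hf ξ
      obtain ⟨m, hm⟩ := hg ξ
      exact ⟨n * m, by simp [hn, hm]⟩
    · simp only [Pi.mul_apply]
      rw [hN.mono (le_max_left N M) ξ η e, hM.mono (le_max_right N M) ξ η e]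
  one_mem' := ⟨fun _ => ⟨1, by simp⟩, 0, fun _ _ _ => rfl⟩
  add_mem' := by
    rintro f g ⟨hf, N, hN⟩ ⟨hg, M, hM⟩
    refine ⟨fun ξ => ?_, max N M, fun ξ η e => ?_⟩
    · obtain ⟨n, hn⟩ := hf ξ
      obtain ⟨m, hm⟩ := hg ξ
      exact ⟨n + m, by simp [hn, hm]⟩
    · simp only [Pi.add_apply]
      rw [hN.mono (le_max_left N M) ξ η e, hM.mono (le_max_right N M) ξ η e]
  zero_mem' := ⟨fun _ => ⟨0, by simp⟩, 0, fun _ _ _ => rfl⟩
  neg_mem' := by
    rintro f ⟨hf, N, hN⟩
    refine ⟨fun ξ => ?_, N, fun ξ η e => ?_⟩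
    · obtain ⟨n, hn⟩ := hf ξ
      exact ⟨-n, by simp [hn]⟩
    · simp only [Pi.neg_apply]
      rw [hN ξ η e]

theorem countable_B0 : Countable (B0 p) := by
  let g : (Σ N : ℕ, ((Fin N → Bool) → ℤ)) → B0 p := fun q =>
    ⟨fun ξ => (q.2 (fun i => ξ i) : ℤ_[p]), fun ξ => ⟨_, rfl⟩, q.1, fun ξ η e => by
      have : (fun i : Fin q.1 => ξ i) = fun i : Fin q.1 => η i := funext fun i => e i i.2
      simp only [this]⟩
  have hg : Function.Surjective g := by
    rintro ⟨f, hf, N, hN⟩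
    have hf' := hf
    choose n hn using hf'
    refine ⟨⟨N, fun s => n (fun i => if h : i < N then s ⟨i, h⟩ else false)⟩, ?_⟩
    apply Subtype.ext
    funext ξ
    simp only [g]
    rw [← hn]
    apply hN
    intro i hi
    simp [hi]
  exact hg.countable

theorem pure_B0 (f : (ℕ → Bool) → ℤ_[p]) (h : p • f ∈ B0 p) : f ∈ B0 p := by
  obtain ⟨hf, N, hN⟩ := h
  have hp : (p : ℤ_[p]) ≠ 0 := by exact_mod_cast (Fact.out : p.Prime).ne_zero
  refine ⟨fun ξ => ?_, N, fun ξ η e => ?_⟩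
  · obtain ⟨n, hn⟩ := hf ξ
    exact int_of_p_mul _ n (by simpa using hn)
  · have := hN ξ η e
    simp only [Pi.smul_apply, nsmul_eq_mul] at this
    exact mul_left_cancel₀ hp this

/-- The indicator of the `n`-th coordinate. -/
noncomputable def chi (n : ℕ) : (ℕ → Bool) → ℤ_[p] := fun ξ => if ξ n then 1 else 0

theorem chi_mem (n : ℕ) : chi p n ∈ B0 p := by
  refine ⟨fun ξ => ?_, n + 1, fun ξ η e => ?_⟩
  · unfold chi
    split_ifs
    · exact ⟨1, by simp⟩
    · exact ⟨0, by simp⟩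
  · unfold chi
    rw [e n (Nat.lt_succ_self n)]

theorem chi_idem (n : ℕ) : chi p n * chi p n = chi p n := by
  funext ξ
  simp only [Pi.mul_apply, chi]
  split_ifs <;> simp

theorem split_B0 (f : (ℕ → Bool) → ℤ_[p]) (hf : f ∈ B0 p) (h0 : f ≠ 0) :
    ∃ n, f * chi p n ≠ 0 ∧ f * (1 - chi p n) ≠ 0 := by
  obtain ⟨-, N, hN⟩ := hf
  obtain ⟨ξ, hξ⟩ := Function.ne_iff.1 h0
  have key : ∀ b : Bool, f (Function.update ξ N b) = f ξ := fun b =>
    hN _ _ (fun i hi => Function.update_of_ne (ne_of_lt hi) _ _)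
  refine ⟨N, fun h => hξ ?_, fun h => hξ ?_⟩
  · have := congrFun h (Function.update ξ N true)
    simpa [chi, key] using this
  · have := congrFun h (Function.update ξ N false)
    simpa [chi, key] using this

/-- The ambient `ℤ_[p]`-algebra. -/
abbrev TT : Type := Six ((ℕ → Bool) → ℤ_[p])

noncomputable instance : Algebra ℤ_[p] (TT p) := Six.algebra ℤ_[p]

/-- The ring that is realised as an endomorphism ring. -/
noncomputable abbrev RR : Subring (TT p) := Six.sub (B0 p)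

theorem split_RR (r : RR p) (hr : r ≠ 0) :
    ∃ c : RR p, c ∈ Subring.center (RR p) ∧ c * c = c ∧ r * c ≠ 0 ∧ r * (1 - c) ≠ 0 := by
  have z := (B0 p).zero_mem
  let c : ℕ → RR p := fun n => ⟨⟨chi p n, 0, 0, 0, 0, 0⟩, ⟨chi_mem p n, z, z, z, z, z⟩⟩
  have hc : ∀ n, c n ∈ Subring.center (RR p) ∧ c n * c n = c n := fun n =>
    ⟨Six.mem_center _ _ rfl rfl, Subtype.ext (by apply Six.ext <;> simp [c, chi_idem])⟩
  have hsub : ∀ n, ((1 - c n : RR p) : TT p) = ⟨1 - chi p n, 0, 0, 0, 0, 0⟩ := by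
    intro n
    rw [sub_eq_add_neg]
    apply Six.ext <;> simp [c, sub_eq_add_neg]
  have main : ∀ (π : TT p → ((ℕ → Bool) → ℤ_[p])), π 0 = 0 →
      (∀ (s : TT p) (e : (ℕ → Bool) → ℤ_[p]), π (s * ⟨e, 0, 0, 0, 0, 0⟩) = π s * e) →
      π r ∈ B0 p → π r ≠ 0 →
      ∃ c : RR p, c ∈ Subring.center (RR p) ∧ c * c = c ∧ r * c ≠ 0 ∧ r * (1 - c) ≠ 0 := by
    intro π hπ0 hπ hmem hne
    obtain ⟨n, h1, h2⟩ := split_B0 p _ hmem hne
    refine ⟨c n, (hc n).1, (hc n).2, fun h => h1 ?_, fun h => h2 ?_⟩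
    · have := congrArg (fun r : RR p => π r) h
      rw [← hπ]
      exact this.trans hπ0
    · have := congrArg (fun r : RR p => π r) h
      rw [← hπ, ← hsub]
      exact this.trans hπ0
  by_contra hcon
  apply hr
  apply Subtype.ext
  apply Six.ext
  · by_contra h; exact hcon (main Six.a rfl (fun s e => by simp) r.2.1 h)
  · by_contra h; exact hcon (main Six.x rfl (fun s e => by simp) r.2.2.1 h)
  · by_contra h; exact hcon (main Six.y rfl (fun s e => by simp) r.2.2.2.1 h)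
  · by_contra h; exact hcon (main Six.u rfl (fun s e => by simp) r.2.2.2.2.1 h)
  · by_contra h; exact hcon (main Six.v rfl (fun s e => by simp) r.2.2.2.2.2.1 h)
  · by_contra h; exact hcon (main Six.t rfl (fun s e => by simp) r.2.2.2.2.2.2 h)

/-- The six coordinate projections. -/
def coord (j : Fin 6) (r : TT p) : (ℕ → Bool) → ℤ_[p] :=
  ![r.a, r.x, r.y, r.u, r.v, r.t] j

/-- The coordinate functionals. -/
noncomputable def lamT (i : (ℕ → Bool) × Fin 6) : TT p →ₗ[ℤ_[p]] ℤ_[p] where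
  toFun r := coord p i.2 r i.1
  map_add' r s := by
    obtain ⟨ξ, j⟩ := i
    fin_cases j <;> rfl
  map_smul' c r := by
    obtain ⟨ξ, j⟩ := i
    fin_cases j <;> rfl

theorem nsmul_coord (n : ℕ) (r : TT p) :
    (n • r).a = n • r.a ∧ (n • r).x = n • r.x ∧ (n • r).y = n • r.y ∧ (n • r).u = n • r.u ∧
      (n • r).v = n • r.v ∧ (n • r).t = n • r.t := by
  induction n with
  | zero => simp
  | succ n ih =>
    obtain ⟨h1, h2, h3, h4, h5, h6⟩ := ih
    simp only [succ_nsmul, Six.add_a, Six.add_x, Six.add_y, Six.add_u, Six.add_v, Six.add_t,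
      h1, h2, h3, h4, h5, h6, and_self]

theorem exists_setup : ∃ S : Setup p (TT p) ((ℕ → Bool) × Fin 6), S.R = RR p := by
  have := countable_B0 p
  have := Six.countable_sub (B0 p)
  obtain ⟨a, ha⟩ := exists_surjective_nat (RR p)
  obtain ⟨x, hx⟩ := exists_algInd p
  refine ⟨⟨RR p, lamT p, ?_, ?_, ?_, a, ha, x, hx⟩, rfl⟩
  · intro r h
    apply Six.ext <;> funext ξ
    · exact h (ξ, 0)
    · exact h (ξ, 1)
    · exact h (ξ, 2)
    · exact h (ξ, 3)
    · exact h (ξ, 4)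
    · exact h (ξ, 5)
  · rintro ⟨ξ, j⟩ r ⟨h1, h2, h3, h4, h5, h6⟩
    fin_cases j
    · exact h1.1 ξ
    · exact h2.1 ξ
    · exact h3.1 ξ
    · exact h4.1 ξ
    · exact h5.1 ξ
    · exact h6.1 ξ
  · rintro r ⟨h1, h2, h3, h4, h5, h6⟩
    obtain ⟨e1, e2, e3, e4, e5, e6⟩ := nsmul_coord p p r
    exact ⟨pure_B0 p _ (e1 ▸ h1), pure_B0 p _ (e2 ▸ h2), pure_B0 p _ (e3 ▸ h3),
      pure_B0 p _ (e4 ▸ h4), pure_B0 p _ (e5 ▸ h5), pure_B0 p _ (e6 ▸ h6)⟩

theorem exists_group :
    ∃ (A : Type) (_ : AddCommGroup A), Nonempty (RR p ≃+* AddMonoid.End A) := by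
  obtain ⟨S, hS⟩ := exists_setup p
  exact ⟨S.A, inferInstance, ⟨hS ▸ S.equiv⟩⟩

end Cantor

end Pool.Agent.Lib.MP_6d0c2f_al
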